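import Pool.Agent.H11.CL3
import Pool.Agent.H11.GDefs
import Pool.Agent.H23.AT1

set_option autoImplicit false

namespace Pool.Agent.Results.MP_f2fc00_lc.NPHard
open Pool.Agent.H11.PT Pool.Agent.H23.AT SimpleGraph Finset

def T (H n : ℕ) (R : ℕ → ℕ) (v r k r' k' : ℕ) : Prop :=
  (r = 3 * v ∧ r' = 3 * v + 1 ∧ k' = k) ∨ (r = 3 * v ∧ r' = 3 * v + 2 ∧ k' = k) ∨
  (r = 3 * v + 1 ∧ r' = 3 * v + 2 ∧ k' = k) ∨ (r = 3 * v + 2 ∧ r' = 3 * v ∧ k = k' + 1) ∨
  (r = 3 * v + 2 ∧ R k = r ∧ r' = 3 * n ∧ k < H ∧ k' = k / 3) ∨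
  (r = 3 * n ∧ r' = 3 * v ∧ H ≤ k' ∧ k' < 2 * H ∧ R (k' - H) = r' ∧ k = (k' - H) / 3)

def B (H n : ℕ) (R : ℕ → ℕ) (r k r' k' : ℕ) : Prop :=
  (min r r' < 3 * n ∧ T H n R (min r r' / 3) r k r' k') ∨
  (r < 3 * n ∧ r % 3 = 1 ∧ r' = 3 * n + 1 ∧ k' = 0) ∨
  (r = 3 * n + 1 ∧ r' = r ∧ k < 4 ∧ 4 ≤ k' ∧ k' < 8)

instance (H n : ℕ) (R : ℕ → ℕ) (r k r' k' : ℕ) : Decidable (B H n R r k r' k') := by
  unfold B T; infer_instance

def A (H n : ℕ) (R s : ℕ → ℕ) (r k r' k' : ℕ) : Prop :=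
  (∃ v < n, (s v = 3 * v ∧ T H n R v r k r' k') ∨ (s v = 3 * v + 2 ∧ T H n R v r' k' r k)) ∨
  (r < 3 * n ∧ r % 3 = 1 ∧ r' = 3 * n + 1 ∧ k' = 0) ∨
  (r = 3 * n + 1 ∧ r' = r ∧ k < 8 ∧ k' < 8 ∧
    ((k < 4 ∧ 4 ≤ k' ∧ (k + k') % 2 = 0) ∨ (k' < 4 ∧ 4 ≤ k ∧ (k + k') % 2 = 1)))

section
variable {H n : ℕ} {R s : ℕ → ℕ}

theorem bT {v r k r' k' : ℕ} (hv : v < n) (h : T H n R v r k r' k') : B H n R r k r' k' := by
  obtain ⟨a, rfl⟩ : min r r' < 3 * n ∧ v = min r r' / 3 := by unfold T at h; omega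
  exact .inl ⟨a, h⟩

theorem comb (hH : H % 3 = 0) (hR : ∀ o < H, R o < 3 * n ∧ R o % 3 ≠ 1) (x : ℕ → ℕ → ℕ → ℕ → ℕ)
    (adj : ∀ r k r' k', k < 2 * H + 8 → k' < 2 * H + 8 → B H n R r k r' k' →
      x r k r' k' + x r' k' r k = 1)
    (cap : ∀ r k, ∀ l : List (ℕ × ℕ), l.Nodup → (∀ p ∈ l, p.1 < 3 * n + 2 ∧ p.2 < 2 * H + 8) →
      (l.map fun p => x r k p.1 p.2).sum ≤ 2)
    (nc : ∀ v < n, ∀ k < 2 * H + 8, ¬ ((x (3 * v) k (3 * v + 1) k = 1 ∧
      x (3 * v + 1) k (3 * v + 2) k = 1 ∧ x (3 * v + 2) k (3 * v) k = 1) ∨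
      (x (3 * v + 1) k (3 * v) k = 1 ∧ x (3 * v + 2) k (3 * v + 1) k = 1 ∧
      x (3 * v) k (3 * v + 2) k = 1))) :
    ∃ σ : ℕ → Bool, ∀ j, 3 * j < H → ∃ o, o / 3 = j ∧ σ (R o / 3) = decide (R o % 3 = 2) := by
  have c3 : ∀ r k a b c d e f, a < 3 * n + 2 ∧ c < 3 * n + 2 ∧ e < 3 * n + 2 ∧ b < 2 * H + 8 ∧
      d < 2 * H + 8 ∧ f < 2 * H + 8 ∧ ¬ (a = c ∧ b = d) ∧ ¬ (a = e ∧ b = f) ∧ ¬ (c = e ∧ d = f) →
      x r k a b + x r k c d + x r k e f ≤ 2 := fun r k a b c d e f h => by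
    simpa [add_assoc] using cap r k [(a, b), (c, d), (e, f)] (by simp; omega) (by simp; omega)
  have yT : ∀ v < n, ∀ k < 2 * H + 8, x (3 * v + 1) k (3 * n + 1) 0 = 1 := fun v hv k hk => by
    have a : ∀ i < 4, ∀ j < 4, x (3 * n + 1) i (3 * n + 1) (j + 4) +
        x (3 * n + 1) (j + 4) (3 * n + 1) i = 1 := fun i a j b =>
      adj _ _ _ _ (by omega) (by omega) (.inr (.inr (by omega)))
    have b := fun i j => cap (3 * n + 1) i [(3 * n + 1, j), (3 * n + 1, j + 1), (3 * n + 1, j + 2),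
      (3 * n + 1, j + 3)] (by simp)
    have c := cap (3 * n + 1) 0 [(3 * v + 1, k), (3 * n + 1, 4), (3 * n + 1, 5), (3 * n + 1, 6),
      (3 * n + 1, 7)] (by simp; omega) (by simp; omega)
    have d := adj (3 * v + 1) k (3 * n + 1) 0 hk (by omega) (.inr (.inl (by omega)))
    have b1 := b 1 4 (by simp)
    have b2 := b 2 4 (by simp)
    have b3 := b 3 4 (by simp)
    have b4 := b 4 0 (by simp)
    have b5 := b 5 0 (by simp)
    have b6 := b 6 0 (by simp)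
    have b7 := b 7 0 (by simp)
    simp only [Nat.forall_lt_succ_right, Nat.not_lt_zero, false_imp_iff, implies_true, true_and,
      List.map, List.sum_cons, List.sum_nil, Nat.reduceAdd, zero_add] at a b1 b2 b3 b4 b5 b6 b7 c
    obtain ⟨⟨⟨⟨⟨⟨_, _⟩, _⟩, _⟩, ⟨⟨_, _⟩, _⟩, _⟩, ⟨⟨_, _⟩, _⟩, _⟩, ⟨⟨_, _⟩, _⟩, _⟩ := a
    have : x (3 * n + 1) 0 (3 * v + 1) k ≤ 0 := by linarith
    linarith [Nat.le_zero.1 this]
  let Z := fun v k => x (3 * v) k (3 * v + 1) k = 1 ∧ x (3 * v) k (3 * v + 2) k = 1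
  have zz : ∀ v < n, ∀ k < 2 * H + 8, ∀ r' k', r' < 3 * n + 2 → k' < 2 * H + 8 →
      (k' ≠ k ∨ r' = 3 * n) → x (3 * v + 2) k r' k' = 1 → Z v k := fun v hv k hk r' k' a b c d => by
    have := adj (3 * v) k (3 * v + 1) k hk hk (bT hv (.inl (by omega)))
    have := adj (3 * v) k (3 * v + 2) k hk hk (bT hv (.inr (.inl (by omega))))
    have := adj (3 * v + 1) k (3 * v + 2) k hk hk (bT hv (.inr (.inr (.inl (by omega)))))
    have := c3 (3 * v + 1) k (3 * v) k (3 * v + 2) k (3 * n + 1) 0 (by omega)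
    have := c3 (3 * v + 2) k (3 * v) k (3 * v + 1) k r' k' (by omega)
    have := yT v hv k hk
    have := nc v hv k hk
    omega
  have mono : ∀ v < n, ∀ k j, k + j < 2 * H + 8 → Z v k → Z v (k + j) := fun v hv k j => by
    induction j with
    | zero => exact fun _ h => h
    | succ j ih =>
      intro a b
      have := ih (by omega) b
      have := c3 (3 * v) (k + j) (3 * v + 1) (k + j) (3 * v + 2) (k + j) (3 * v + 2) (k + j + 1)
        (by omega)
      have := adj (3 * v + 2) (k + j + 1) (3 * v) (k + j) a (by omega)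
        (bT hv (.inr (.inr (.inr (.inl (by omega))))))
      exact zz v hv (k + j + 1) a (3 * v) (k + j) (by omega) (by omega) (by omega) (by omega)
  classical
  refine ⟨fun v => decide (Z v H), fun j hj => ?_⟩
  have lit : ∀ o < H, ∃ k < 2 * H + 8, k % H = o ∧ (x (3 * n) (o / 3) (R o) k = 0 →
      decide (Z (R o / 3) H) = decide (R o % 3 = 2)) := fun o ho => by
    obtain ⟨a, b⟩ := hR o ho
    obtain ⟨v, e | e⟩ : ∃ v, R o = 3 * v + 2 ∨ R o = 3 * v := ⟨R o / 3, by omega⟩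
    · refine ⟨o, by omega, Nat.mod_eq_of_lt ho, fun h => ?_⟩
      have := adj (3 * v + 2) o (3 * n) (o / 3) (by omega) (by omega)
        (bT (v := v) (by omega) (.inr (.inr (.inr (.inr (.inl (by omega)))))))
      rw [e] at h ⊢
      have := mono v (by omega) o (H - o) (by omega) (zz v (by omega) o (by omega) (3 * n) (o / 3)
        (by omega) (by omega) (by omega) (by omega))
      rw [Nat.add_sub_of_le ho.le] at this
      rw [show (3 * v + 2) / 3 = v by omega, decide_eq_true this, decide_eq_true (by omega)]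
    · refine ⟨H + o, by omega, by simp [Nat.mod_eq_of_lt ho], fun h => ?_⟩
      have := adj (3 * n) (o / 3) (3 * v) (H + o) (by omega) (by omega)
        (bT (v := v) (by omega) (.inr (.inr (.inr (.inr (.inr (by
          rw [Nat.add_sub_cancel_left]; omega)))))))
      have := c3 (3 * v) (H + o) (3 * v + 1) (H + o) (3 * v + 2) (H + o) (3 * n) (o / 3) (by omega)
      have := mono v (by omega) H o (by omega)
      rw [e] at h ⊢
      rw [show 3 * v / 3 = v by omega, decide_eq_false (by omega), decide_eq_false (by omega)]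
  obtain ⟨a, a1, a2, a3⟩ := lit (3 * j) hj
  obtain ⟨b, b1, b2, b3⟩ := lit (3 * j + 1) (by omega)
  obtain ⟨c, c1, c2, c4⟩ := lit (3 * j + 2) (by omega)
  have := hR (3 * j) hj
  have := hR (3 * j + 1) (by omega)
  have := hR (3 * j + 2) (by omega)
  have := c3 (3 * n) j (R (3 * j)) a (R (3 * j + 1)) b (R (3 * j + 2)) c (by
    refine ⟨by omega, by omega, by omega, a1, b1, c1, ?_, ?_, ?_⟩ <;> rintro ⟨-, rfl⟩ <;> omega)
  rw [show 3 * j / 3 = j by omega] at a3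
  rw [show (3 * j + 1) / 3 = j by omega] at b3
  rw [show (3 * j + 2) / 3 = j by omega] at c4
  rcases (by omega : x (3 * n) j (R (3 * j)) a = 0 ∨ x (3 * n) j (R (3 * j + 1)) b = 0 ∨
    x (3 * n) j (R (3 * j + 2)) c = 0) with h | h | h
  exacts [⟨_, by omega, a3 h⟩, ⟨_, by omega, b3 h⟩, ⟨_, by omega, c4 h⟩]

theorem loc {v r k r' k' : ℕ} (hv : v < n) (h : A H n R s r k r' k') (e : r / 3 = v ∨ r' / 3 = v) :
    (s v = 3 * v ∧ T H n R v r k r' k') ∨ (s v = 3 * v + 2 ∧ T H n R v r' k' r k) ∨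
      (r = 3 * v + 1 ∧ r' = 3 * n + 1 ∧ k' = 0) := by
  rcases h with ⟨u, a, b⟩ | h | h
  · obtain rfl : u = v := by unfold T at b; omega
    exact b.imp_right .inl
  all_goals omega

theorem ab (hs : ∀ v, s v = 3 * v ∨ s v = 3 * v + 2) (r k r' k' : ℕ) :
    (B H n R r k r' k' ∨ B H n R r' k' r k ↔ A H n R s r k r' k' ∨ A H n R s r' k' r k) ∧
      (A H n R s r k r' k' → ¬ A H n R s r' k' r k) := by
  have a : ∀ r k r' k', B H n R r k r' k' → A H n R s r k r' k' ∨ A H n R s r' k' r k := by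
    rintro r k r' k' (⟨a, b⟩ | h | h)
    · exact (hs (min r r' / 3)).imp (fun c => .inl ⟨_, by omega, .inl ⟨c, b⟩⟩)
        fun c => .inl ⟨_, by omega, .inr ⟨c, b⟩⟩
    · exact .inl (.inr (.inl h))
    · exact (em ((k + k') % 2 = 0)).imp (fun c => .inr (.inr (by omega)))
        fun c => .inr (.inr (by omega))
  have b : ∀ r k r' k', A H n R s r k r' k' → B H n R r k r' k' ∨ B H n R r' k' r k := by
    rintro r k r' k' (⟨v, a, b⟩ | h | h)
    · exact b.imp (fun c => bT a c.2) fun c => bT a c.2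
    · exact .inl (.inr (.inl h))
    · exact h.2.2.2.2.imp (fun c => .inr (.inr (by omega))) fun c => .inr (.inr (by omega))
  refine ⟨⟨fun h => h.elim (a _ _ _ _) fun h => (a _ _ _ _ h).symm,
    fun h => h.elim (b _ _ _ _) fun h => (b _ _ _ _ h).symm⟩, fun h h' => ?_⟩
  rcases id h with ⟨v, a, c⟩ | c | c
  · have := loc a h' (by unfold T at c; omega)
    unfold T at *; omega
  · have := loc (v := r / 3) (by omega) h' (.inr rfl)
    unfold T at *; omega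
  · rcases h' with ⟨v, a, c⟩ | c | c
    · unfold T at c; omega
    all_goals omega

theorem out2 (hs : ∀ v, s v = 3 * v ∨ s v = 3 * v + 2)
    (sat : ∀ j, 3 * j < H → ∃ o, o / 3 = j ∧ s (R o / 3) ≠ R o) {r k a b c d e f : ℕ}
    (h1 : A H n R s r k a b) (h2 : A H n R s r k c d) (h3 : A H n R s r k e f) :
    (a = c ∧ b = d) ∨ (a = e ∧ b = f) ∨ (c = e ∧ d = f) := by
  by_cases hr : r < 3 * n
  · have h1 := loc (v := r / 3) (by omega) h1 (.inl rfl)
    have h2 := loc (v := r / 3) (by omega) h2 (.inl rfl)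
    have h3 := loc (v := r / 3) (by omega) h3 (.inl rfl)
    have := hs (r / 3)
    generalize s (r / 3) = t at *
    have : ∀ {a b}, (t = 3 * (r / 3) ∧ T H n R (r / 3) r k a b) ∨
        (t = 3 * (r / 3) + 2 ∧ T H n R (r / 3) a b r k) ∨
        (r = 3 * (r / 3) + 1 ∧ a = 3 * n + 1 ∧ b = 0) →
        (if r = t then a = 3 * (r / 3) + 1 ∧ b = k ∨ a + t = 6 * (r / 3) + 2 ∧ b = k
        else if r % 3 = 1 then a + t = 6 * (r / 3) + 2 ∧ b = k ∨ a = 3 * n + 1 ∧ b = 0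
        else if r % 3 = 0 then a = t ∧ b = k + 1 ∨ a = 3 * n ∧ b = (k - H) / 3
        else a = t ∧ b + 1 = k ∨ a = 3 * n ∧ b = k / 3) := fun h => by
      unfold T at h; split_ifs <;> omega
    have h1 := this h1
    have h2 := this h2
    have h3 := this h3
    clear this
    split_ifs at * <;> omega
  by_cases hr' : r = 3 * n
  · have : ∀ {a b}, A H n R s r k a b → ∃ o < H, o / 3 = k ∧ R o = a ∧ s (a / 3) = a ∧
        b = if a % 3 = 2 then o else H + o := by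
      rintro a b (⟨v, h, ⟨h1, h2⟩ | ⟨h1, h2⟩⟩ | h | h)
      · obtain ⟨rfl, h3⟩ : a = 3 * v ∧ H ≤ b ∧ b < 2 * H ∧ R (b - H) = a ∧ k = (b - H) / 3 := by
          unfold T at h2; omega
        exact ⟨b - H, by omega, by omega, h3.2.2.1, by simpa using h1, by split <;> omega⟩
      · obtain ⟨rfl, h3⟩ : a = 3 * v + 2 ∧ b < H ∧ R b = a ∧ k = b / 3 := by
          unfold T at h2; omega
        exact ⟨b, by omega, by omega, h3.2.1, by rwa [show (3 * v + 2) / 3 = v by omega],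
          by split <;> omega⟩
      all_goals omega
    obtain ⟨x, x1, x2, rfl, x3, rfl⟩ := this h1
    obtain ⟨y, y1, y2, rfl, y3, rfl⟩ := this h2
    obtain ⟨z, z1, z2, rfl, z3, rfl⟩ := this h3
    obtain ⟨o, o1, o2⟩ := sat k (by omega)
    have : x ≠ o := by rintro rfl; exact o2 x3
    have : y ≠ o := by rintro rfl; exact o2 y3
    have : z ≠ o := by rintro rfl; exact o2 z3
    rcases (by omega : x = y ∨ x = z ∨ y = z) with rfl | rfl | rfl <;> simp
  have : ∀ {a b}, A H n R s r k a b → a = r ∧ k < 8 ∧ b < 8 ∧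
      ((k < 4 ∧ 4 ≤ b ∧ (k + b) % 2 = 0) ∨ (b < 4 ∧ 4 ≤ k ∧ (k + b) % 2 = 1)) := by
    rintro a b (⟨v, h, h'⟩ | h | h)
    · unfold T at h'; omega
    all_goals omega
  have h1 := this h1
  have h2 := this h2
  have h3 := this h3
  omega

variable {V : Type} [Fintype V] [DecidableEq V] {G : SimpleGraph V} {ρ κ : V → ℕ} {mk : ℕ → ℕ → V}

theorem bwd (hH : H % 3 = 0) (hR : ∀ o < H, R o < 3 * n ∧ R o % 3 ≠ 1)
    (hm : ∀ r k, r < 3 * n + 2 → k < 2 * H + 8 → ρ (mk r k) = r ∧ κ (mk r k) = k)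
    (hA : ∀ u v, G.Adj u v ↔ B H n R (ρ u) (κ u) (ρ v) (κ v) ∨ B H n R (ρ v) (κ v) (ρ u) (κ u))
    {D : Finset (V × V)} (hD : IsOri G D) (he : EE D ≠ EO D)
    (hc : ∀ v, (D.filter fun a => a.1 = v).card + 1 ≤ 3) :
    ∃ σ : ℕ → Bool, ∀ j, 3 * j < H → ∃ o, o / 3 = j ∧ σ (R o / 3) = decide (R o % 3 = 2) := by
  have ad : ∀ r k r' k', k < 2 * H + 8 → k' < 2 * H + 8 → B H n R r k r' k' →
      G.Adj (mk r k) (mk r' k') := fun r k r' k' a b c => by
    obtain ⟨d, e⟩ : r < 3 * n + 2 ∧ r' < 3 * n + 2 := by unfold B T at c; omega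
    rw [hA, (hm _ _ d a).1, (hm _ _ d a).2, (hm _ _ e b).1, (hm _ _ e b).2]
    exact .inl c
  obtain ⟨S, h1, -, h2⟩ := reduce hD (ι := Fin n × Fin (2 * H + 8)) (fun i => mk (3 * i.1) i.2)
    (fun i => mk (3 * i.1 + 1) i.2) (fun i => mk (3 * i.1 + 2) i.2) (fun u => (ρ u / 3, κ u))
    (fun i => (i.1.1, i.2.1)) (fun i j e => by simpa [Prod.ext_iff, Fin.ext_iff] using e)
    (fun ⟨⟨v, a⟩, k, b⟩ => by
      have := hm (3 * v) k (by omega) b
      have := hm (3 * v + 1) k (by omega) b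
      have := hm (3 * v + 2) k (by omega) b
      simp only [Prod.mk.injEq]; omega)
    fun ⟨⟨v, a⟩, k, b⟩ => ⟨ad _ _ _ _ b b (bT a (.inl (by simp))),
      ad _ _ _ _ b b (bT a (.inr (.inr (.inl (by simp))))),
      (ad _ _ _ _ b b (bT a (.inr (.inl (by simp))))).symm⟩
  obtain ⟨F, hF⟩ : S.Nonempty := nonempty_iff_ne_empty.2 (by rintro rfl; simp at h1; omega)
  obtain ⟨a, b, c⟩ := h2 F hF
  refine comb hH hR (fun r k r' k' => if DF D F (mk r k) (mk r' k') then 1 else 0)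
    (fun r k r' k' x y z => df_adj hD a (ad _ _ _ _ x y z)) (fun r k l x y => ?_)
    fun v hv k hk => by simpa using c (⟨v, hv⟩, ⟨k, hk⟩)
  have := df_cap hD a b (mk r k) (l.map fun p => mk p.1 p.2) (x.map_on fun p hp q hq e => by
    have := hm _ _ (y p hp).1 (y p hp).2
    have := hm _ _ (y q hq).1 (y q hq).2
    rw [e] at *
    ext <;> omega)
  have := hc (mk r k)
  rw [List.map_map] at *
  exact Nat.le_of_succ_le_succ ((Nat.succ_le_succ ‹_›).trans this)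

theorem fwd (hs : ∀ v, s v = 3 * v ∨ s v = 3 * v + 2)
    (sat : ∀ j, 3 * j < H → ∃ o, o / 3 = j ∧ s (R o / 3) ≠ R o)
    (hv : ∀ v, ρ v < 3 * n + 2 ∧ κ v < 2 * H + 8 ∧ mk (ρ v) (κ v) = v)
    (hm : ∀ r k, r < 3 * n + 2 → k < 2 * H + 8 → ρ (mk r k) = r ∧ κ (mk r k) = k)
    (hA : ∀ u v, G.Adj u v ↔ B H n R (ρ u) (κ u) (ρ v) (κ v) ∨ B H n R (ρ v) (κ v) (ρ u) (κ u)) :
    ∃ D, IsOri G D ∧ EE D ≠ EO D ∧ ∀ v, (D.filter fun a => a.1 = v).card + 1 ≤ 3 := by
  classical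
  obtain ⟨D, mD⟩ : ∃ D : Finset (V × V), ∀ u v, (u, v) ∈ D ↔ A H n R s (ρ u) (κ u) (ρ v) (κ v) :=
    ⟨univ.filter fun a => A H n R s (ρ a.1) (κ a.1) (ρ a.2) (κ a.2), by simp⟩
  have ext : ∀ u r k, ρ u = r → κ u = k → u = mk r k := by
    rintro u _ _ rfl rfl; exact (hv u).2.2.symm
  have hD : IsOri G D := ⟨fun u v => by rw [hA, mD, mD]; exact (ab hs _ _ _ _).1,
    fun u v => by rw [mD, mD]; exact (ab hs _ _ _ _).2⟩
  refine ⟨D, hD, ?_, fun v => ?_⟩
  swap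
  · by_contra g
    obtain ⟨⟨_, x⟩, ⟨_, y⟩, ⟨_, z⟩, a, b, c, d, e, f⟩ :=
      (two_lt_card_iff (s := D.filter fun a => a.1 = v)).1 (by omega)
    simp only [mem_filter] at a b c
    obtain ⟨a, rfl⟩ := a
    obtain ⟨b, rfl⟩ := b
    obtain ⟨c, rfl⟩ := c
    rcases out2 hs sat ((mD _ _).1 a) ((mD _ _).1 b) ((mD _ _).1 c) with h | h | h
    · exact d (by rw [ext x _ _ h.1 h.2, (hv y).2.2])
    · exact e (by rw [ext x _ _ h.1 h.2, (hv z).2.2])
    · exact f (by rw [ext y _ _ h.1 h.2, (hv z).2.2])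
  have tr : ∀ v < n, ∀ k < 2 * H + 8, (mk (s v) k, mk (3 * v + 1) k) ∈ D ∧
      (mk (3 * v + 1) k, mk (6 * v + 2 - s v) k) ∈ D ∧ (mk (s v) k, mk (6 * v + 2 - s v) k) ∈ D := by
    intro v a k b
    have := hs v
    have h1 := hm (s v) k (by omega) b
    have h2 := hm (3 * v + 1) k (by omega) b
    have h3 := hm (6 * v + 2 - s v) k (by omega) b
    simp only [mD, h1, h2, h3]
    exact ⟨.inl ⟨v, a, this.imp (fun e => ⟨e, .inl (by omega)⟩) fun e =>
      ⟨e, .inr (.inr (.inl (by omega)))⟩⟩, .inl ⟨v, a, this.imp (fun e =>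
      ⟨e, .inr (.inr (.inl (by omega)))⟩) fun e => ⟨e, .inl (by omega)⟩⟩, .inl ⟨v, a, this.imp
      (fun e => ⟨e, .inr (.inl (by omega))⟩) fun e => ⟨e, .inr (.inl (by omega))⟩⟩⟩
  obtain ⟨S, h1, h0, h2⟩ := reduce hD (ι := Fin n × Fin (2 * H + 8)) (fun i => mk (s i.1) i.2)
    (fun i => mk (3 * i.1 + 1) i.2) (fun i => mk (6 * i.1 + 2 - s i.1) i.2) (fun u => (ρ u / 3, κ u))
    (fun i => (i.1.1, i.2.1)) (fun i j e => by simpa [Prod.ext_iff, Fin.ext_iff] using e)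
    (fun ⟨⟨v, a⟩, k, b⟩ => by
      have := hs v
      have := hm (s v) k (by omega) b
      have := hm (3 * v + 1) k (by omega) b
      have := hm (6 * v + 2 - s v) k (by omega) b
      simp only [Prod.mk.injEq]; omega)
    fun ⟨⟨v, a⟩, k, b⟩ => ⟨(hD.1 _ _).2 (.inl (tr v a k b).1), (hD.1 _ _).2 (.inl (tr v a k b).2.1),
      (hD.1 _ _).2 (.inr (tr v a k b).2.2)⟩
  have e0 : ∅ ∈ S := by
    by_contra c
    obtain ⟨⟨⟨v, a⟩, k, b⟩, h⟩ := h0 c
    exact tri_not hD (tr v a k b).1 (tr v a k b).2.1 (tr v a k b).2.2 h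
  suffices ∀ F ∈ S, Even F.card by
    rw [sum_congr rfl fun F h => (this F h).neg_one_pow] at h1
    have := card_pos.2 ⟨_, e0⟩
    simp at h1; omega
  intro F hF
  obtain ⟨a, b, c⟩ := h2 F hF
  have fA : ∀ u v, (u, v) ∈ F → A H n R s (ρ u) (κ u) (ρ v) (κ v) := fun u v h => (mD _ _).1 (a h)
  have noT : ∀ u v, (u, v) ∈ F → ρ v = 3 * n + 1 → ρ u = 3 * n + 1 := fun u v h e => by
    have := eq_of_subset_of_card_le (s := F.filter fun a => ρ a.1 = 3 * n + 1)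
      (t := F.filter fun a => ρ a.2 = 3 * n + 1) (fun x hx => by
        obtain ⟨x1, x2⟩ := mem_filter.1 hx
        refine mem_filter.2 ⟨x1, ?_⟩
        rcases fA _ _ x1 with ⟨v, h, h'⟩ | h | h
        · unfold T at h'; omega
        all_goals omega) (eul_pred b fun u => ρ u = 3 * n + 1).ge
    exact (mem_filter.1 (this.ge (mem_filter.2 ⟨h, e⟩))).2
  have tF : ∀ u w, (u, w) ∈ F → ρ u < 3 * n → ρ u / 3 = ρ w / 3 → κ u ≠ κ w := by
    intro u w h h1 h2 h3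
    obtain ⟨v, e⟩ : ∃ v, v = ρ u / 3 := ⟨_, rfl⟩
    have hv' : v < n := by omega
    have hk := (hv u).2.1
    have := hs v
    have m1 := hm (s v) _ (by omega) hk
    have m2 := hm (3 * v + 1) _ (by omega) hk
    have m3 := hm (6 * v + 2 - s v) _ (by omega) hk
    obtain ⟨t1, t2, t3⟩ := tf hD a b (tr v hv' _ hk).1 (tr v hv' _ hk).2.1 (tr v hv' _ hk).2.2
      (c (⟨v, hv'⟩, ⟨_, hk⟩)) (fun x hx => by
        have := loc hv' (fA _ _ hx) (by omega)
        unfold T at this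
        exact ext _ _ _ (by omega) (by omega)) (fun x hx => by
        have := loc hv' (fA _ _ hx) (by omega)
        have := noT _ _ hx
        unfold T at *
        exact ext _ _ _ (by omega) (by omega)) fun x y z t hx hy hz ht => by
        have h1 := loc hv' (fA _ _ hx) (by omega)
        have h2 := loc hv' (fA _ _ hy) (by omega)
        have h3 := loc hv' (fA _ _ hz) (by omega)
        have h4 := loc hv' (fA _ _ ht) (by omega)
        simp only [m1, m3] at h1 h2 h3 h4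
        have : ρ x = ρ y ∧ κ x = κ y ∨ ρ z = ρ t ∧ κ z = κ t := by
          unfold T at *
          by_cases κ u < H <;> by_cases s v = 3 * v
          · left; clear h3 h4; omega
          · right; clear h1 h2; omega
          · right; clear h1 h2; omega
          · left; clear h3 h4; omega
        exact this.imp (fun h => (ext _ _ _ h.1 h.2).trans (hv y).2.2)
          fun h => (ext _ _ _ h.1 h.2).trans (hv t).2.2
    have := loc hv' (fA _ _ h) (by omega)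
    have : (ρ u = s v ∧ ρ w = 3 * v + 1) ∨ (ρ u = 3 * v + 1 ∧ ρ w = 6 * v + 2 - s v) ∨
        (ρ u = s v ∧ ρ w = 6 * v + 2 - s v) := by unfold T at this; omega
    rcases this with e | e | e <;> rw [ext u _ _ e.1 rfl, ext w _ _ e.2 h3.symm] at h <;>
      contradiction
  have inT : ∀ u w, (u, w) ∈ F → ρ u = 3 * n + 1 := fun u w h => by
    rcases fA _ _ h with ⟨v, h1, h2⟩ | e | e
    · obtain ⟨x, hx⟩ := eul_out b h
      obtain ⟨y, hy⟩ := eul_in b h
      have := tF _ _ h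
      have := tF _ _ hx
      have := tF _ _ hy
      have : ρ w = s v ∨ ρ u = 6 * v + 2 - s v := by unfold T at h2; omega
      have := hs v
      exfalso
      rcases ‹ρ w = s v ∨ _› with e | e
      · have := loc h1 (fA _ _ hx) (by omega)
        clear h2; unfold T at *; omega
      · have := loc h1 (fA _ _ hy) (by omega)
        clear h2; unfold T at *; omega
    · exact noT _ _ h e.2.2.1
    · exact e.1
  have h1 := card_filter_add_card_filter_not (s := F) fun a => κ a.1 < 4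
  have h2 := eul_pred b fun u => κ u < 4
  rw [filter_congr (s := F) (p := fun a => ¬ κ a.1 < 4) (q := fun a => κ a.2 < 4)
    fun x hx => ?_] at h1
  · exact ⟨(F.filter fun a => κ a.1 < 4).card, by omega⟩
  have := inT _ _ hx
  rcases fA _ _ hx with ⟨v, h, h'⟩ | h | h
  · unfold T at h'; omega
  all_goals omega

end

abbrev F3 := List (Lit × Lit × Lit)

def nv (φ : F3) : ℕ := (φ.map fun c => c.1.1 + c.2.1.1 + c.2.2.1).sum

def li (φ : F3) (o : ℕ) : Lit :=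
  [(φ.getD (o / 3) ((0, true), (0, true), (0, true))).1,
    (φ.getD (o / 3) ((0, true), (0, true), (0, true))).2.1,
    (φ.getD (o / 3) ((0, true), (0, true), (0, true))).2.2].getD (o % 3) (0, true)

def ro (φ : F3) (o : ℕ) : ℕ := 3 * (li φ o).1 + bif (li φ o).2 then 2 else 0

def red (φ : F3) : ℕ × List (ℕ × ℕ) :=
  ((3 * (nv φ + 1) + 2) * (2 * (3 * φ.length) + 8),
  (List.range ((3 * (nv φ + 1) + 2) * (2 * (3 * φ.length) + 8))).flatMap fun u =>
    ((List.range ((3 * (nv φ + 1) + 2) * (2 * (3 * φ.length) + 8))).filter fun v =>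
      decide (B (3 * φ.length) (nv φ + 1) (ro φ) (u / (2 * (3 * φ.length) + 8))
        (u % (2 * (3 * φ.length) + 8)) (v / (2 * (3 * φ.length) + 8))
        (v % (2 * (3 * φ.length) + 8)))).map fun v => (u, v))

theorem red_ok (φ : F3) : SAT3 φ ↔ AT (gr (red φ).1 (red φ).2) ≤ 3 := by
  unfold red
  set W := 2 * (3 * φ.length) + 8 with hW
  set N := (3 * (nv φ + 1) + 2) * W with hN
  have W0 : 0 < W := by omega
  have N0 : 0 < N := by positivity
  let mk : ℕ → ℕ → Fin N := fun r k => ⟨(r * W + k) % N, Nat.mod_lt _ N0⟩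
  have mv : ∀ r k, r < 3 * (nv φ + 1) + 2 → k < W → (mk r k).1 = r * W + k :=
    fun r k a b => Nat.mod_eq_of_lt (by rw [hN]; nlinarith)
  have hv : ∀ v : Fin N, v.1 / W < 3 * (nv φ + 1) + 2 ∧ v.1 % W < W ∧
      mk (v.1 / W) (v.1 % W) = v := fun v => by
    have a : v.1 / W < 3 * (nv φ + 1) + 2 := (Nat.div_lt_iff_lt_mul W0).2 v.2
    have b := Nat.mod_lt v.1 W0
    exact ⟨a, b, Fin.ext (by rw [mv _ _ a b, Nat.div_add_mod'])⟩
  have hm : ∀ r k, r < 3 * (nv φ + 1) + 2 → k < W →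
      (mk r k).1 / W = r ∧ (mk r k).1 % W = k := fun r k a b => by
    rw [mv r k a b, add_comm, Nat.add_mul_div_right _ _ W0, Nat.add_mul_mod_self_right,
      Nat.div_eq_of_lt b, Nat.mod_eq_of_lt b]
    simp
  generalize hE : List.flatMap _ _ = E
  have hA : ∀ u v : Fin N, (gr N E).Adj u v ↔ B (3 * φ.length) (nv φ + 1) (ro φ)
      (u.1 / W) (u.1 % W) (v.1 / W) (v.1 % W) ∨
      B (3 * φ.length) (nv φ + 1) (ro φ) (v.1 / W) (v.1 % W) (u.1 / W) (u.1 % W) := fun u v => by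
    simp only [gr, fromRel_adj, ← hE, List.mem_flatMap, List.mem_map, List.mem_filter,
      List.mem_range, Prod.mk.injEq, decide_eq_true_eq]
    refine ⟨fun h => h.2.imp ?_ ?_, fun h => ⟨?_, h.imp (fun h => ⟨u, u.2, v, ⟨v.2, h⟩, rfl, rfl⟩)
      fun h => ⟨v, v.2, u, ⟨u.2, h⟩, rfl, rfl⟩⟩⟩
    · rintro ⟨_, -, _, h, rfl, rfl⟩; exact h.2
    · rintro ⟨_, -, _, h, rfl, rfl⟩; exact h.2
    · rintro rfl; unfold B T at h; omega
  have gd : ∀ j (h : j < φ.length), li φ (3 * j) = φ[j].1 ∧ li φ (3 * j + 1) = φ[j].2.1 ∧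
      li φ (3 * j + 2) = φ[j].2.2 := fun j h => by
    simp [li, h, show (3 * j + 1) / 3 = j by omega, show (3 * j + 2) / 3 = j by omega]
  have rd : ∀ o, ro φ o / 3 = (li φ o).1 ∧ (ro φ o % 3 = 2 ↔ (li φ o).2 = true) ∧
      ro φ o % 3 ≠ 1 ∧ ro φ o % 3 < 3 := fun o => by
    unfold ro; cases (li φ o).2 <;> simp <;> omega
  have key : ∀ σ : ℕ → Bool, (∀ c ∈ φ, σ c.1.1 = c.1.2 ∨ σ c.2.1.1 = c.2.1.2 ∨ σ c.2.2.1 = c.2.2.2) ↔
      ∀ j, 3 * j < 3 * φ.length → ∃ o, o / 3 = j ∧ σ (li φ o).1 = (li φ o).2 := fun σ => by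
    refine ⟨fun h j hj => ?_, fun h c hc => ?_⟩
    · obtain ⟨a, b, c⟩ := gd j (by omega)
      rcases h _ (List.getElem_mem (show j < φ.length by omega)) with h | h | h
      exacts [⟨_, by omega, a ▸ h⟩, ⟨_, by omega, b ▸ h⟩, ⟨_, by omega, c ▸ h⟩]
    · obtain ⟨j, hj, rfl⟩ := List.getElem_of_mem hc
      obtain ⟨o, h1, h2⟩ := h j (by omega)
      obtain ⟨a, b, c⟩ := gd j hj
      rcases (by omega : o = 3 * j ∨ o = 3 * j + 1 ∨ o = 3 * j + 2) with rfl | rfl | rfl <;>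
        simp_all
  rw [at_le]
  refine ⟨fun ⟨σ, h⟩ => fwd (s := fun v => if σ v then 3 * v else 3 * v + 2)
    (fun v => by split <;> simp) (fun j hj => ?_) hv hm hA, fun ⟨D, a, b, c⟩ => ?_⟩
  · obtain ⟨o, h1, h2⟩ := (key σ).1 h j hj
    obtain ⟨a, b, c⟩ := rd o
    refine ⟨o, h1, ?_⟩
    simp only [a, h2, ← b]
    split <;> omega
  · refine (bwd (by omega) (fun o ho => ⟨?_, (rd o).2.2.1⟩) hm hA a b c).imp fun σ h => ?_
    swap
    · refine (key σ).2 fun j hj => ?_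
      obtain ⟨o, h1, h2⟩ := h j hj
      exact ⟨o, h1, by simpa [(rd o).1, (rd o).2.1] using h2⟩
    have hj : o / 3 < φ.length := by omega
    have : φ[o / 3].1.1 + φ[o / 3].2.1.1 + φ[o / 3].2.2.1 ≤ nv φ :=
      List.single_le_sum (by simp) _ (List.mem_map.2 ⟨_, List.getElem_mem hj, rfl⟩)
    obtain ⟨a, b, c⟩ := gd _ hj
    have := (rd o).1
    rcases (by omega : 3 * (o / 3) = o ∨ 3 * (o / 3) + 1 = o ∨ 3 * (o / 3) + 2 = o) with e | e | e
    · rw [e] at a; rw [a] at this; omega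
    · rw [e] at b; rw [b] at this; omega
    · rw [e] at c; rw [c] at this; omega

theorem result : NPHard fun y : ℕ × List (ℕ × ℕ) => AT (gr y.1 y.2) ≤ 3 :=
  (hard_SAT3.red red (by unfold red B T ro li nv; fun_prop) red_ok).npHard

end Pool.Agent.Results.MP_f2fc00_lc.NPHard
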